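import Pool.Agent.P.MP_ec274c_lc.Hard
import Pool.Agent.P.MP_ec274c_lc.Tree

namespace Pool.Agent.Results.MP_ec274c_lc.Complexity

open Pool.Agent.P.MP_ec274c_lc

/-- MIN-SUM is NP-complete, and the minimum label sum of nice forests (in particular of nice
trees) is computable in polynomial time. -/
theorem result : N793a5b8e.IsCompleteFor N68a2faeb.NP MinSum ∧
    ∃ f : List Bool → List Bool, N68a2faeb.IsPolyTime f ∧
      ∀ (n : ℕ) (T : SimpleGraph (Fin n)), T.IsAcyclic → Nice T →
        f (N487b59b3.bitEncode (adjMatrix T)) = N487b59b3.bitEncode (mE T) :=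
  ⟨⟨minSum_mem_NP, minSum_hard⟩, forest_polytime⟩

end Pool.Agent.Results.MP_ec274c_lc.Complexity
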